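import Pool.Agent.PCO.StmtsE

/-!
# Squad NTS / PCO, row DSC: discreteness of the boxes
-/

set_option autoImplicit false

open Matrix Filter Topology

namespace Pool.Agent.PCO.H10

open Pool.Agent.PFS Pool.Agent.PFJ

theorem dsc (bf1 : Bf1Stmt) (bf2 : Bf2Stmt) (bxm : BxmStmt) (bxw : BxwStmt) (ffp : FfpStmt)
    (dir : DirStmt) (e1 : E1Stmt) (e2a : E2aStmt) (e5 : E5Stmt) : DscStmt := by
  intro n C Γ d H U v Um vm hB hd hBm hdm hL hv
  have hP : PCone C := H.toCC.toPCone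
  have he1 := e1 n C Γ d H U v Um vm hB hd hBm hdm hL hv
  obtain ⟨-, hvcl, hv0, hvU, -, -, ⟨f, hf⟩, -, -⟩ := bf1 n C Γ H.toCC H.maxc U v hB
  obtain ⟨-, -, -, h4, -, -, -⟩ := bf2 n C Γ H.toCC H.maxc U v hB
  obtain ⟨-, -, -, hext, -, -, h7⟩ := bxm n C Γ d H U v hB hd
  have key : ∀ c, Bd C U c → (∃ᶠ m in atTop, c ∉ Um m) → False := by
    intro c hc hfr
    obtain ⟨θ, hθ, hθP⟩ := extraction_of_frequently_atTop (hfr.and_eventually he1)
    have hLθ : LimS (fun m => Um (θ m)) U := (Pool.Agent.PFJ.H10.lsf n).1 Um U θ hL hθ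
    have hvθ : Tendsto (fun m => vm (θ m)) atTop (𝓝 v) := hv.comp hθ.tendsto_atTop
    have hfc : Unt C U (f + c) := ((Pool.Agent.PFJ.H76.unf n C hP U f hf).2.2.1) c hc.1 hc.2.1
    rcases ffp n C Γ d H U v (fun m => Um (θ m)) (fun m => vm (θ m)) hB hd (fun m => hBm _)
      (fun m => hdm _) hLθ hvθ f c 0 hf.1 hf.2.1 hc.1 hc.2.1 hfc le_rfl with h | h
    · obtain ⟨m, hm⟩ := h.exists
      have hmem : c ∈ Wb (Um (θ m)) (vm (θ m)) := by
        refine dir n C hP (Wb (Um (θ m)) (vm (θ m))) (f + v) c (hP.cl_add hf.2.1 hvcl) hc.2.1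
          hc.2.2.1 (hext c hc) fun j => ?_
        have e : f + (2 : ℝ) ^ j • c + (1 + (2 : ℝ) ^ j * 0) • v = f + v + (2 : ℝ) ^ j • c := by
          rw [mul_zero, add_zero, one_smul]
          abel
        have := hm j
        rwa [e] at this
      rcases bxw n C Γ H.toCC H.maxc _ _ (hBm (θ m)) c hmem hc.2.1 (hext c hc) hc.2.2.1 with
        h1 | ⟨t, ht, h1⟩
      · exact (hθP m).1 h1
      · obtain ⟨κ, hκ, h2⟩ := (hθP m).2
        rw [h2, smul_smul] at h1
        have h3 : v = (t * κ)⁻¹ • c := by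
          rw [h1, smul_smul, inv_mul_cancel₀ (mul_pos ht hκ).ne', one_smul]
        exact hvU (by
          rw [h3]
          exact U.smul_mem _ hc.1)
    · choose κ hκ using fun m => (hθP m).2
      obtain ⟨U1, U2, v1, b, hb1, hb2, hd1, hd2, hne, hbd1, hbd2⟩ :=
        e2a n C Γ d H U v (fun m => Um (θ m)) (fun m => vm (θ m)) f c κ hB hd hLθ hκ hf hc h
      exact e5 n C Γ d H U1 U2 v1 b hb1 hb2 hd1 hd2 hne hbd1 hbd2
  obtain ⟨e, he, -⟩ := h4 0 0
  obtain ⟨e', he', hind⟩ := h4 e 0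
  have hI : Ind2 e e' := by
    intro a b hab
    have hb : b = 0 := by
      by_contra hb
      refine hind (-(a / b)) 0 ?_
      rw [smul_zero, add_zero]
      have h1 : b • e' = -(a • e) := by
        rw [eq_neg_iff_add_eq_zero, add_comm]
        exact hab
      have h2 : e' = b⁻¹ • (b • e') := by rw [smul_smul, inv_mul_cancel₀ hb, one_smul]
      rw [h2, h1, smul_neg, smul_smul, neg_smul]
      congr 2
      rw [div_eq_mul_inv, mul_comm]
    rw [hb, zero_smul, add_zero] at hab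
    exact ⟨(smul_eq_zero.1 hab).resolve_right he.2.2.1, hb⟩
  have hev : ∀ᶠ m in atTop, Um m = U := by
    by_contra hcon
    rw [not_eventually] at hcon
    have h1 : ∃ᶠ m in atTop, e ∉ Um m ∨ e' ∉ Um m := hcon.mono fun m hm => by
      by_contra h2
      push Not at h2
      exact hm (h7 (Um m) (vm m) (hBm m) (hdm m) e he.1 e' he'.1 he.2.1 he'.2.1 hI h2.1 h2.2)
    rcases frequently_or_distrib.1 h1 with h2 | h2
    · exact key e he h2
    · exact key e' he' h2
  exact hev.and he1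

end Pool.Agent.PCO.H10
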